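import Pool.Agent.helper62.EN.SpecA

set_option autoImplicit false

/-!
# MP_07c750, project EN, row PAR: small partitions with null boundaries
-/

open scoped Topology
open MeasureTheory Filter Set

namespace Pool.Agent.EN

theorem PAR_inter {X : Type} [TopologicalSpace X] [MeasurableSpace X] (lam : Measure X)
    {s t : Set X} (hs : lam (frontier s) = 0) (ht : lam (frontier t) = 0) :
    lam (frontier (s ∩ t)) = 0 := by
  refine measure_mono_null (t := frontier s ∪ frontier t) ?_ (measure_union_null hs ht)
  intro x hx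
  rcases frontier_inter_subset s t hx with h | h
  · exact Or.inl h.1
  · exact Or.inr h.2

theorem PAR_biInter {X : Type} [TopologicalSpace X] [MeasurableSpace X] (lam : Measure X)
    {ι : Type} (F : Finset ι) (s : ι → Set X) (hs : ∀ i ∈ F, lam (frontier (s i)) = 0) :
    lam (frontier (⋂ i ∈ F, s i)) = 0 := by
  classical
  induction F using Finset.induction_on with
  | empty => simp
  | insert a F ha ih =>
    rw [Finset.set_biInter_insert]
    exact PAR_inter lam (hs a (Finset.mem_insert_self a F))
      (ih fun i hi => hs i (Finset.mem_insert_of_mem hi))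

theorem PAR_proof : PAR_stmt := by
  intro X _ _ _ _ _ _ lam U hlam hU
  classical
  have : TopologicalSpace.MetrizableSpace X :=
    TopologicalSpace.metrizableSpace_of_t3_secondCountable X
  let _ : MetricSpace X := TopologicalSpace.metrizableSpaceMetric X
  have h1 : ∀ x : X, ∃ r : ℝ, 0 < r ∧ Metric.ball x r ⊆ U x ∧
      lam (frontier (Metric.ball x r)) = 0 := by
    intro x
    obtain ⟨ε, hε, hεU⟩ := Metric.mem_nhds_iff.1 (hU x)
    obtain ⟨r, hr, hr0⟩ := exists_null_frontier_thickening lam ({x} : Set X) hε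
    refine ⟨r, hr.1, (Metric.ball_subset_ball hr.2.le).trans hεU, ?_⟩
    rw [Metric.thickening_singleton] at hr0
    exact hr0
  choose r hr hrU hr0 using h1
  obtain ⟨t, -, ht⟩ := isCompact_univ.elim_nhds_subcover (fun x => Metric.ball x (r x))
    (fun x _ => Metric.ball_mem_nhds x (hr x))
  let c : Fin t.card → X := fun i => (t.equivFin.symm i : X)
  let B : Fin t.card → Set X := fun i => Metric.ball (c i) (r (c i))
  have hB : ∀ x : X, ∃ i, x ∈ B i := by
    intro x
    have hx := ht (Set.mem_univ x)
    rw [Set.mem_iUnion₂] at hx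
    obtain ⟨y, hy, hxy⟩ := hx
    refine ⟨t.equivFin ⟨y, hy⟩, ?_⟩
    change x ∈ Metric.ball (c _) (r (c _))
    have : c (t.equivFin ⟨y, hy⟩) = y := by
      change ((t.equivFin.symm (t.equivFin ⟨y, hy⟩) : t) : X) = y
      rw [Equiv.symm_apply_apply]
    rw [this]
    exact hxy
  have hne : ∀ x : X, (Finset.univ.filter (fun i => x ∈ B i)).Nonempty := by
    intro x
    obtain ⟨i, hi⟩ := hB x
    exact ⟨i, Finset.mem_filter.2 ⟨Finset.mem_univ _, hi⟩⟩
  let P : X → Fin t.card := fun x => (Finset.univ.filter (fun i => x ∈ B i)).min' (hne x)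
  have hPle : ∀ x i, x ∈ B i → P x ≤ i := fun x i hi =>
    Finset.min'_le (Finset.univ.filter (fun i => x ∈ B i)) i
      (Finset.mem_filter.2 ⟨Finset.mem_univ i, hi⟩)
  have hPmem : ∀ x, x ∈ B (P x) := fun x =>
    (Finset.mem_filter.1 (Finset.min'_mem (Finset.univ.filter (fun i => x ∈ B i)) (hne x))).2
  have hP : ∀ i, P ⁻¹' {i} = B i ∩ ⋂ j ∈ Finset.univ.filter (fun j => j < i), (B j)ᶜ := by
    intro i
    ext x
    rw [Set.mem_preimage, Set.mem_singleton_iff, Set.mem_inter_iff, Set.mem_iInter₂]
    constructor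
    · intro h
      have h2 := hPmem x
      rw [h] at h2
      refine ⟨h2, fun j hj hjx => ?_⟩
      have hj' := (Finset.mem_filter.1 hj).2
      have h3 : P x ≤ j := hPle x j hjx
      rw [h] at h3
      exact absurd hj' (not_lt.2 h3)
    · rintro ⟨h2, h3⟩
      have h4 : P x ≤ i := hPle x i h2
      rcases h4.eq_or_lt with h | h
      · exact h
      · exfalso
        exact h3 (P x) (Finset.mem_filter.2 ⟨Finset.mem_univ _, h⟩) (hPmem x)
  refine ⟨t.card, P, ?_, ?_, ?_⟩
  · refine measurable_to_countable' fun i => ?_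
    rw [hP i]
    refine MeasurableSet.inter Metric.isOpen_ball.measurableSet ?_
    refine Finset.measurableSet_biInter _ fun j _ => ?_
    exact Metric.isOpen_ball.measurableSet.compl
  · intro i _
    refine ⟨c i, ?_⟩
    rw [hP i]
    exact Set.inter_subset_left.trans (hrU (c i))
  · intro i
    rw [hP i]
    refine PAR_inter lam (hr0 (c i)) (PAR_biInter lam _ _ fun j _ => ?_)
    rw [frontier_compl]
    exact hr0 (c j)

end Pool.Agent.EN
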